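import Pool.Agent.MP_e8e0b6_ag.NP.Main

open AlgebraicGeometry CategoryTheory Limits Pool.Agent.MP_e8e0b6_ag

namespace Pool.Agent.Results.MP_e8e0b6_ag.EtaleBundle

theorem result (k : Type) [Field k] [IsAlgClosed k] [CharZero k] :
    ∃ (X S S' F : Scheme.{0}) (f : S ⟶ Spec (CommRingCat.of k)) (π : X ⟶ S)
      (c : S' ⟶ S) (φ : F ⟶ Spec (CommRingCat.of k)) (m : pullback (c ≫ f) φ ⟶ X),
      IsAffine X ∧ IsAffine S ∧ SmoothVariety (π ≫ f) ∧ Smooth π ∧ Surjective π ∧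
      IsFinite c ∧ Etale c ∧ Surjective c ∧ IsPullback m (pullback.fst (c ≫ f) φ) π c ∧
      Elliptic f ∧ Elliptic φ ∧
      (∀ s : Spec (CommRingCat.of k) ⟶ S, s ≫ f = 𝟙 _ → Elliptic (pullback.snd π s)) ∧
      ¬ Elliptic (π ≫ f) :=
  NP.main k

end Pool.Agent.Results.MP_e8e0b6_ag.EtaleBundle
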