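import Pool.Agent.MP_e8e0b6_ag.P1.Main

open AlgebraicGeometry CategoryTheory Limits Pool.Agent.MP_e8e0b6_ag

namespace Pool.Agent.Results.MP_e8e0b6_ag.RelDimOne

theorem result (k : Type) [Field k] [IsAlgClosed k] [CharZero k] (X S : Scheme.{0})
    (f : S ⟶ Spec (CommRingCat.of k)) (π : X ⟶ S) (hX : SmoothVariety (π ≫ f)) [IsProper π]
    [SmoothOfRelativeDimension 1 π] (eS : Elliptic f)
    (eF : ∀ s : Spec (CommRingCat.of k) ⟶ S, s ≫ f = 𝟙 _ → Elliptic (pullback.snd π s)) :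
    Elliptic (π ≫ f) :=
  elliptic_of_relDimOne f π hX eS eF

end Pool.Agent.Results.MP_e8e0b6_ag.RelDimOne
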