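import Pool.Agent.MP_e8e0b6_ag.RP.Z1

open AlgebraicGeometry CategoryTheory Limits Pool.Agent.MP_e8e0b6_ag

namespace Pool.Agent.Results.MP_e8e0b6_ag.RelDimTwo

theorem result (k : Type) [Field k] [IsAlgClosed k] [CharZero k] (X S : Scheme.{0})
    (f : S ⟶ Spec (CommRingCat.of k)) (π : X ⟶ S) (N : ℕ) (i : X ⟶ pullback (projStr k N) f)
    (hi : IsClosedImmersion i) (hπ : i ≫ pullback.snd (projStr k N) f = π) [Smooth π]
    (hX : SmoothVariety (π ≫ f)) (eS : Elliptic f) (hS : SimplyConnected S)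
    (hF : ∀ (Ω : Type) [Field Ω] [IsAlgClosed Ω] (s : Spec (CommRingCat.of Ω) ⟶ S),
      RationalSurface (pullback.snd π s)) :
    Elliptic (π ≫ f) :=
  R2.elliptic_of_surfaces hi hπ hX eS hS hF

end Pool.Agent.Results.MP_e8e0b6_ag.RelDimTwo
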