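import Pool.Agent.MP_e8e0b6_ag.SB.Main

open AlgebraicGeometry CategoryTheory Limits Pool.Agent.MP_e8e0b6_ag

namespace Pool.Agent.Results.MP_e8e0b6_ag.SeveriBrauer

theorem result (k : Type) [Field k] [IsAlgClosed k] [CharZero k] (n : ℕ) (hn : 1 ≤ n)
    (X S : Scheme.{0}) (f : S ⟶ Spec (CommRingCat.of k)) (π : X ⟶ S)
    (hX : SmoothVariety (π ≫ f)) [Smooth π] (eS : Elliptic f)
    (hπ : ∀ s : S, ∃ (V : Scheme.{0}) (g : V ⟶ S), Etale g ∧ s ∈ Set.range g ∧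
      ∃ e : pullback π g ⟶ projSpace k n,
        IsPullback e (pullback.snd π g) (projStr k n) (g ≫ f)) :
    Elliptic (π ≫ f) :=
  have : Nontrivial (Fin (n + 1)) := Fin.nontrivial_iff_two_le.2 (Nat.succ_le_succ hn)
  SB.elliptic_of_locP f π hX eS (locP_of hπ)

end Pool.Agent.Results.MP_e8e0b6_ag.SeveriBrauer
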